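import Mathlib

set_option autoImplicit false
set_option maxRecDepth 100000

namespace Pool.Agent.Results.MP_a0a898_co.Counter
open Classical

/-- `D` is a dominating set -/
def Dom {V : Type} (G : SimpleGraph V) (D : Set V) : Prop := ∀ v, v ∈ D ∨ ∃ u ∈ D, G.Adj u v

/-- the player to move, when the set of picked vertices is `D`, has a winning strategy -/
inductive MoverWins {V : Type} (G : SimpleGraph V) : Set V → Prop
  | last (D : Set V) (v : V) : ¬ Dom G D → v ∉ D → Dom G (insert v D) → MoverWins G D
  | step (D : Set V) (v : V) : ¬ Dom G D → v ∉ D → ¬ Dom G (insert v D) →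
      (∀ w, w ∉ insert v D → MoverWins G (insert w (insert v D))) → MoverWins G D

abbrev grid (k m : ℕ) : SimpleGraph (Fin k × Fin m) := SimpleGraph.pathGraph k □ SimpleGraph.pathGraph m

def ix (p : Fin 2 × Fin 7) : ℕ := 7 * p.1.1 + p.2.1

def un (i : ℕ) : Fin 2 × Fin 7 := (⟨i / 7 % 2, Nat.mod_lt _ (by norm_num)⟩, ⟨i % 7, Nat.mod_lt _ (by norm_num)⟩)

def toD (s : ℕ) : Set (Fin 2 × Fin 7) := {p | s.testBit (ix p) = true}

def nb (i : ℕ) : List ℕ :=
  [i, (i + 7) % 14] ++ (if i % 7 = 0 then [] else [i - 1]) ++ (if i % 7 = 6 then [] else [i + 1])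

def domB (s : ℕ) : Bool := (List.range 14).all fun i => (nb i).any fun j => s.testBit j

lemma ix_lt (p : Fin 2 × Fin 7) : ix p < 14 := by revert p; decide
lemma ix_inj (p q : Fin 2 × Fin 7) : ix p = ix q ↔ p = q := by revert p q; decide
lemma ix_un (i : ℕ) (h : i < 14) : ix (un i) = i := by interval_cases i <;> rfl

lemma adj_iff (p q : Fin 2 × Fin 7) : (p = q ∨ (grid 2 7).Adj p q) ↔ ix p ∈ nb (ix q) := by
  simp only [SimpleGraph.boxProd_adj, SimpleGraph.pathGraph_adj]
  revert p q
  decide +kernel

lemma nb_lt : ∀ i < 14, ∀ j ∈ nb i, j < 14 := by decide +kernel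

lemma dom_iff (s : ℕ) : Dom (grid 2 7) (toD s) ↔ domB s = true := by
  unfold domB
  simp only [List.all_eq_true, List.any_eq_true, List.mem_range]
  constructor
  · intro h i hi
    rcases h (un i) with h1 | ⟨u, hu, ha⟩
    · refine ⟨ix (un i), ?_, h1⟩
      have := (adj_iff (un i) (un i)).1 (Or.inl rfl)
      rwa [ix_un i hi] at this ⊢
    · refine ⟨ix u, ?_, hu⟩
      have := (adj_iff u (un i)).1 (Or.inr ha)
      rwa [ix_un i hi] at this
  · intro h v
    obtain ⟨j, hj, hb⟩ := h (ix v) (ix_lt v)
    have hj' := nb_lt _ (ix_lt v) j hj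
    rw [← ix_un j hj'] at hj hb
    rcases (adj_iff _ _).2 hj with h1 | h1
    · left; rw [← h1]; exact hb
    · right; exact ⟨un j, hb, h1⟩

lemma ins (s : ℕ) (v : Fin 2 × Fin 7) : insert v (toD s) = toD (s ||| 2 ^ ix v) := by
  ext p
  simp only [toD, Set.mem_insert_iff, Set.mem_setOf_eq, Nat.testBit_or, Nat.testBit_two_pow,
    Bool.or_eq_true, decide_eq_true_eq, ix_inj]
  constructor
  · rintro (h | h)
    · exact Or.inr h.symm
    · exact Or.inl h
  · rintro (h | h)
    · exact Or.inr h
    · exact Or.inl h.symm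

def L : List ℕ :=
  [1, 53, 102, 164, 291, 437, 486, 544, 628, 692, 818, 928, 1014, 1058, 1147, 1252, 1379, 1442, 1525, 1594,
  1636, 1907, 1970, 2016, 2085, 2469, 2612, 2660, 2724, 2848, 2936, 3003, 3046, 3179, 3557, 3626, 3897, 3939,
  4002, 4133, 4525, 4660, 4708, 4780, 4896, 4983, 5046, 5094, 5227, 5605, 5674, 5939, 5987, 6692, 6962, 7008,
  7078, 7158, 7971, 8051, 8237, 8614, 8759, 9078, 9142, 9316, 9589, 9653, 9706, 10080, 10144, 10784, 10876,
  10940, 11062, 11110, 11174, 11621, 11685, 11828, 12832, 12924, 12988, 13110, 13158, 13669, 13733, 13876,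
  14907, 15142, 15222, 16422, 16806, 16950, 17270, 17334, 17461, 17508, 17572, 17698, 17781, 17845, 17897,
  17952, 18272, 18336, 18982, 19254, 19302, 19366, 19493, 19813, 19877, 21030, 21302, 21350, 21541, 21861,
  21925, 23334, 23414, 25636, 25909, 25955, 26018, 26101, 26400, 26592, 27190, 27941, 28133, 29238, 29989,
  30181, 32806, 33184, 33270, 33332, 33654, 33719, 33842, 33888, 33960, 34088, 34226, 34272, 34345, 34610,
  34656, 35253, 35364, 35635, 35686, 35744, 35830, 35874, 36642, 36786, 37302, 37408, 37494, 37558, 37686,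
  37734, 37922, 38450, 39481, 39718, 39798, 39862, 41398, 41782, 42021, 42336, 42400, 42546, 42592, 42656,
  42784, 43576, 43814, 43958, 44578, 45623, 46626, 47734, 47798, 47926, 48690, 49590, 49974, 50208, 50528,
  50592, 52006, 52150, 53814, 58656, 58848, 58912, 64054, 65573, 65952, 66037, 66106, 66148, 66216, 66338,
  66419, 66482, 66528, 66660, 66931, 66994, 67040, 67106, 67187, 67296, 67437, 68027, 68138, 68409, 68451,
  68514, 68963, 69219, 70069, 70179, 70451, 70499, 71011, 71267, 72483, 72563, 74165, 74278, 74592, 75104,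
  75168, 75314, 75360, 75424, 75552, 76338, 77346, 78386, 79394, 82357, 82464, 82784, 82978, 83059, 83168,
  83296, 83360, 83552, 85091, 87139, 91245, 91424, 91616, 91680, 98743, 98854, 99122, 99168, 99365, 99680,
  99890, 99936, 100008, 100136, 100853, 101154, 101298, 101810, 101922, 102962, 103970, 104885, 108077, 108981,
  113202, 115808, 116256, 117173, 131113, 131496, 131642, 131955, 132018, 132196, 132467, 132576, 132972,
  133674, 133945, 133987, 134050, 134499, 135722, 135987, 136035, 136547, 138019, 138099, 139316, 139366,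
  139430, 139552, 139814, 140322, 140404, 140468, 140517, 140640, 140704, 140852, 140899, 140962, 141044,
  141088, 141280, 141348, 141876, 142436, 142500, 142884, 143076, 143396, 143924, 144484, 144548, 144932,
  145124, 148521, 148832, 148896, 155686, 156723, 156780, 156832, 156960, 157152, 157216, 157408, 158755,
  160803, 164274, 164658, 164905, 165216, 166690, 166834, 168498, 172070, 173106, 173152, 173216, 173344,
  173612, 173792, 175138, 177186, 178738, 189472, 197042, 197158, 197478, 197989, 198202, 198244, 198312,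
  198434, 198515, 198624, 200234, 200547, 202275, 202595, 204838, 205875, 205930, 205984, 206112, 206379,
  206560, 206688, 207907, 209955, 214121, 214560, 214880, 222242, 222323, 222432, 222560, 222816, 224355,
  226403, 230953, 231264, 231858, 238629, 239154, 239200, 239264, 239392, 241186, 243234, 255072, 255520]

def ok (e : ℕ) : Bool :=
  decide (e % 16 < 14) && decide (e / 16 < 16384) && !(e / 16).testBit (e % 16) && !domB (e / 16) &&
    (domB (e / 16 ||| 2 ^ (e % 16)) || (List.range 14).all fun w =>
      (e / 16 ||| 2 ^ (e % 16)).testBit w ||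
        L.any fun f => f / 16 == ((e / 16 ||| 2 ^ (e % 16)) ||| 2 ^ w) && decide (e / 16 < f / 16))

lemma chk : L.all ok = true := by decide +kernel

lemma main (n : ℕ) : ∀ e ∈ L, 16384 - e / 16 ≤ n → MoverWins (grid 2 7) (toD (e / 16)) := by
  induction n with
  | zero =>
    intro e he hn
    have := List.all_eq_true.1 chk e he
    simp only [ok, Bool.and_eq_true, decide_eq_true_eq] at this
    omega
  | succ n ih =>
    intro e he hn
    have h := List.all_eq_true.1 chk e he
    simp only [ok, Bool.and_eq_true, decide_eq_true_eq, Bool.not_eq_true', Bool.or_eq_true,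
      List.all_eq_true, List.any_eq_true, List.mem_range, beq_iff_eq] at h
    obtain ⟨⟨⟨⟨h1, h2⟩, h3⟩, h4⟩, h5⟩ := h
    have hx := ix_un _ h1
    have a1 : ¬ Dom (grid 2 7) (toD (e / 16)) := by rw [dom_iff, h4]; simp
    have a2 : un (e % 16) ∉ toD (e / 16) := by
      simp only [toD, Set.mem_setOf_eq, hx, h3]; simp
    by_cases hd : Dom (grid 2 7) (insert (un (e % 16)) (toD (e / 16)))
    · exact MoverWins.last _ _ a1 a2 hd
    · refine MoverWins.step _ _ a1 a2 hd ?_
      intro w hw
      rw [ins, hx] at hw hd ⊢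
      rw [dom_iff] at hd
      rcases h5 with h5 | h5
      · exact absurd h5 hd
      rcases h5 (ix w) (ix_lt w) with h6 | ⟨f, hf, h6, h7⟩
      · exact absurd h6 hw
      · rw [ins, ← h6]
        exact ih f hf (by omega)

theorem result : ∃ k m : ℕ, 2 ≤ k ∧ 2 ≤ m ∧ Even (k * m) ∧ MoverWins (grid k m) ∅ := by
  refine ⟨2, 7, le_rfl, by norm_num, by decide, ?_⟩
  have h := main 16384 1 (by decide +kernel) (by norm_num)
  have e : toD (1 / 16) = ∅ := by
    ext p
    simp [toD]
  rwa [e] at h

end Pool.Agent.Results.MP_a0a898_co.Counter
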